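import Pool.Agent.helper82.VD.SpecI

/-!
# Row vdg:GUE of MP_07c750_an (uniform facts for the class)
-/

set_option autoImplicit false

open MeasureTheory Filter Set Topology Pool.Agent.VDE Pool.Agent.VD
open scoped ENNReal InnerProductSpace

namespace Pool.Agent.VDG

noncomputable section

/-- `FlD` is monotone in the constant -/
theorem GUE_mono {d : ℕ} {Γ : Type} [Group Γ] [MulAction Γ (V d)] {K F0 : Set (V d)}
    {G : V d → V d →L[ℝ] V d} {Φ : ℝ → P d → P d} {C C' : ℝ} {dd : P d → P d → ℝ} (hC : C ≤ C')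
    (h : FlD Γ K F0 G Φ C dd) : FlD Γ K F0 G Φ C' dd where
  fdk := h.fdk
  fdx := h.fdx
  met := h.met
  flow := h.flow
  dis := {
    cont := h.dis.cont
    nn := h.dis.nn
    zero := h.dis.zero
    symm := h.dis.symm
    tri := h.dis.tri
    inv := h.dis.inv
    lo := fun p q h1 h2 h3 h4 => (h.dis.lo p q h1 h2 h3 h4).trans
      (mul_le_mul_of_nonneg_right hC (h.dis.nn p q))
    up := fun p q h1 h2 h3 h4 => (h.dis.up p q h1 h2 h3 h4).trans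
      (mul_le_mul_of_nonneg_right hC (norm_nonneg _)) }
  one := h.one
  mul := h.mul
  lc := h.lc
  lm := h.lm
  ln := h.ln
  fn := h.fn
  fe := h.fe
  fs := h.fs
  fm := h.fm

/-- a ball which contains the neighbourhood of `K` -/
theorem GUE_ball {d : ℕ} {K : Set (V d)} (hK : IsCompact K) :
    ∃ m : ℕ, ∀ p : P d, Nr K 1 p → ‖p.1‖ ≤ m := by
  obtain ⟨R, hR⟩ := hK.isBounded.exists_norm_le
  refine ⟨⌈R + 1⌉₊, fun p ⟨k, hk, hpk⟩ => ?_⟩
  have h1 : ‖p.1‖ ≤ ‖p.1 - k‖ + ‖k‖ := by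
    have := norm_add_le (p.1 - k) k
    rwa [sub_add_cancel] at this
  have h2 := hR k hk
  have h3 := Nat.le_ceil (R + 1)
  linarith

/-- the square of the norm -/
theorem GUE_sq {d : ℕ} (hGIN : Pool.Agent.VD.GIN_stmt) {G : V d → V d →L[ℝ] V d}
    (hG : IsMetric G) (p : P d) : nrm G p ^ 2 = ⟪G p.1 (IG G p.1 p.2), IG G p.1 p.2⟫_ℝ := by
  obtain ⟨i1, i2, i3, -, -⟩ := hGIN d G hG
  have h0 : 0 ≤ ⟪IG G p.1 p.2, p.2⟫_ℝ := by
    rcases eq_or_ne p.2 0 with h | h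
    · rw [h]
      simp
    · exact (i3 _ _ h).le
  unfold nrm
  rw [Real.sq_sqrt h0, (i1 _ _).2, real_inner_comm]

theorem GUE_bd {d : ℕ} (hGIN : Pool.Agent.VD.GIN_stmt) {G : V d → V d →L[ℝ] V d}
    (hG : IsMetric G) {b : ℝ} (hb : 1 ≤ b) (p : P d)
    (h1 : ∀ u : V d, ‖u‖ ^ 2 ≤ b * ⟪G p.1 u, u⟫_ℝ) (h2 : ‖G p.1‖ ≤ b) :
    ‖IG G p.1 p.2‖ ≤ b * nrm G p ∧ ‖p.2‖ ≤ b ^ 2 * nrm G p := by
  obtain ⟨i1, i2, i3, -, -⟩ := hGIN d G hG
  have hn : 0 ≤ nrm G p := Real.sqrt_nonneg _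
  have e1 := h1 (IG G p.1 p.2)
  rw [← GUE_sq hGIN hG] at e1
  have e2 : ‖IG G p.1 p.2‖ ≤ b * nrm G p := by
    refine abs_le_of_sq_le_sq' ?_ (by positivity) |>.2
    have : b * nrm G p ^ 2 ≤ b ^ 2 * nrm G p ^ 2 :=
      mul_le_mul_of_nonneg_right (by nlinarith) (sq_nonneg _)
    nlinarith
  refine ⟨e2, ?_⟩
  have e3 : p.2 = G p.1 (IG G p.1 p.2) := (i1 _ _).2.symm
  have e4 : ‖p.2‖ ≤ ‖G p.1‖ * ‖IG G p.1 p.2‖ := by
    conv_lhs => rw [e3]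
    exact (G p.1).le_opNorm _
  calc ‖p.2‖ ≤ ‖G p.1‖ * ‖IG G p.1 p.2‖ := e4
    _ ≤ b * (b * nrm G p) := mul_le_mul h2 e2 (norm_nonneg _) (by linarith)
    _ = b ^ 2 * nrm G p := by ring

/-- the norm is Lipschitz -/
theorem GUE_lip {d : ℕ} (hGIN : Pool.Agent.VD.GIN_stmt) {G : V d → V d →L[ℝ] V d}
    (hG : IsMetric G) {b : ℝ} (hb : 1 ≤ b) (p q : P d)
    (hp1 : ∀ u : V d, ‖u‖ ^ 2 ≤ b * ⟪G p.1 u, u⟫_ℝ) (hp2 : ‖G p.1‖ ≤ b)
    (hq1 : ∀ u : V d, ‖u‖ ^ 2 ≤ b * ⟪G q.1 u, u⟫_ℝ) (hq2 : ‖G q.1‖ ≤ b)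
    (hL : ‖G q.1 - G p.1‖ ≤ b * ‖q.1 - p.1‖)
    (h1 : 1 ≤ nrm G p) (h2 : nrm G p ≤ 2) (h3 : 1 ≤ nrm G q) (h4 : nrm G q ≤ 2) :
    |nrm G p - nrm G q| ≤ 8 * b ^ 3 * ‖p - q‖ := by
  obtain ⟨i1, i2, i3, -, -⟩ := hGIN d G hG
  set u := IG G p.1 p.2 with hu
  set w := IG G q.1 q.2 with hw
  have eu : G p.1 u = p.2 := (i1 _ _).2
  have ew : G q.1 w = q.2 := (i1 _ _).2
  have nu : ‖u‖ ≤ 2 * b := by
    have := (GUE_bd hGIN hG hb p hp1 hp2).1
    rw [← hu] at this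
    nlinarith
  have nw : ‖w‖ ≤ 2 * b := by
    have := (GUE_bd hGIN hG hb q hq1 hq2).1
    rw [← hw] at this
    nlinarith
  have s1 : nrm G p ^ 2 = ⟪u, p.2⟫_ℝ := by
    rw [GUE_sq hGIN hG, ← hu, eu, real_inner_comm]
  have s2 : nrm G q ^ 2 = ⟪w, q.2⟫_ℝ := by
    rw [GUE_sq hGIN hG, ← hw, ew, real_inner_comm]
  have key : nrm G p ^ 2 - nrm G q ^ 2 =
      ⟪u, p.2 - q.2⟫_ℝ + (⟪(G q.1 - G p.1) u, w⟫_ℝ + ⟪p.2 - q.2, w⟫_ℝ) := by
    have k1 : ⟪u, q.2⟫_ℝ = ⟪G q.1 u, w⟫_ℝ := by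
      rw [← ew, ← hG.symm]
    have k2 : (G q.1 - G p.1) u = G q.1 u - p.2 := by
      rw [sub_apply, eu]
    rw [s1, s2, k2, inner_sub_right, inner_sub_left, inner_sub_left, k1, real_inner_comm q.2 w]
    ring
  have n1 : ‖p.1 - q.1‖ ≤ ‖p - q‖ := norm_fst_le (p - q)
  have n2 : ‖p.2 - q.2‖ ≤ ‖p - q‖ := norm_snd_le (p - q)
  have n1' : ‖q.1 - p.1‖ ≤ ‖p - q‖ := by
    rw [norm_sub_rev]
    exact n1
  have hN := norm_nonneg (p - q)
  have b1 : |⟪u, p.2 - q.2⟫_ℝ| ≤ 2 * b * ‖p - q‖ :=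
    (abs_real_inner_le_norm _ _).trans
      (mul_le_mul nu n2 (norm_nonneg _) (by linarith))
  have b3 : |⟪p.2 - q.2, w⟫_ℝ| ≤ ‖p - q‖ * (2 * b) :=
    (abs_real_inner_le_norm _ _).trans (mul_le_mul n2 nw (norm_nonneg _) hN)
  have b2 : |⟪(G q.1 - G p.1) u, w⟫_ℝ| ≤ (b * ‖p - q‖ * (2 * b)) * (2 * b) := by
    refine (abs_real_inner_le_norm _ _).trans
      (mul_le_mul ?_ nw (norm_nonneg _) (by positivity))
    refine ((G q.1 - G p.1).le_opNorm u).trans (mul_le_mul ?_ nu (norm_nonneg _) (by positivity))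
    exact hL.trans (mul_le_mul_of_nonneg_left n1' (by linarith))
  have tot : |nrm G p ^ 2 - nrm G q ^ 2| ≤ 8 * b ^ 3 * ‖p - q‖ := by
    rw [key]
    refine (abs_add_le _ _).trans ?_
    refine (add_le_add b1 ((abs_add_le _ _).trans (add_le_add b2 b3))).trans ?_
    have h5 : 4 * b ≤ 4 * b ^ 3 := by nlinarith [sq_nonneg (b - 1), mul_nonneg (by linarith : (0:ℝ) ≤ b) (by nlinarith : (0:ℝ) ≤ b ^ 2 - 1)]
    calc 2 * b * ‖p - q‖ + (b * ‖p - q‖ * (2 * b) * (2 * b) + ‖p - q‖ * (2 * b))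
        = (4 * b + 4 * b ^ 3) * ‖p - q‖ := by ring
      _ ≤ (8 * b ^ 3) * ‖p - q‖ := mul_le_mul_of_nonneg_right (by linarith) hN
  have fac : |nrm G p ^ 2 - nrm G q ^ 2| = |nrm G p - nrm G q| * (nrm G p + nrm G q) := by
    rw [show nrm G p ^ 2 - nrm G q ^ 2 = (nrm G p - nrm G q) * (nrm G p + nrm G q) by ring,
      abs_mul, abs_of_nonneg (show (0:ℝ) ≤ nrm G p + nrm G q by linarith)]
  have := abs_nonneg (nrm G p - nrm G q)
  nlinarith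

theorem GUE_proof (hGIN : Pool.Agent.VD.GIN_stmt) (hDPP : DPP_stmt) (hDGR : DGR_stmt) : GUE_stmt := by
  intro d Γ _ _ K k B χ hK hχ ⟨C0, hC0⟩
  obtain ⟨q1, q2, q3, q4, q5, q6, q7, q8, q9, q10, q11⟩ := hDPP d Γ K χ hK hχ
  obtain ⟨C1, hC1, hD⟩ := hDGR d Γ K k B χ hK hχ
  obtain ⟨m, hm⟩ := GUE_ball hK.compact
  set b : ℝ := max 1 (max (B m 0) (B m 1)) with hbdef
  have hb : 1 ≤ b := le_max_left _ _
  have hb0 : B m 0 ≤ b := (le_max_left _ _).trans (le_max_right _ _)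
  have hb1 : B m 1 ≤ b := (le_max_right _ _).trans (le_max_right _ _)
  obtain ⟨C2, hC2, hU⟩ := q10 m (2 * b ^ 2)
  set CC : ℝ := max C0 (max (C1 * Real.exp (C1 * 2)) (max C2 (8 * b ^ 3))) with hCC
  have l0 : C0 ≤ CC := le_max_left _ _
  have l1 : C1 * Real.exp (C1 * 2) ≤ CC := (le_max_left _ _).trans (le_max_right _ _)
  have l2 : C2 ≤ CC := (le_max_left _ _).trans ((le_max_right _ _).trans (le_max_right _ _))
  have l3 : 8 * b ^ 3 ≤ CC := (le_max_right _ _).trans ((le_max_right _ _).trans (le_max_right _ _))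
  have l4 : 1 ≤ CC := hC2.trans l2
  have l5 : b ^ 2 ≤ CC := by
    refine le_trans ?_ l3
    nlinarith [sq_nonneg b, mul_nonneg (sq_nonneg b) (by linarith : (0:ℝ) ≤ b - 1)]
  have l6 : C1 ≤ CC := by
    refine le_trans ?_ l1
    have h := Real.one_le_exp (show (0:ℝ) ≤ C1 * 2 by linarith)
    nlinarith
  refine ⟨1, CC, one_pos, l4, fun F0 G Φ hF hG hΦ => ?_⟩
  have hfl := hC0 F0 G Φ hF hG hΦ
  obtain ⟨g1, g2, g3⟩ := hD G Φ hG hΦ
  have hlo : ∀ p : P d, Nr K 1 p → ∀ u : V d, ‖u‖ ^ 2 ≤ b * ⟪G p.1 u, u⟫_ℝ := by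
    intro p hp u
    refine (hG.lo m p.1 u (hm p hp)).trans (mul_le_mul_of_nonneg_right hb0 ?_)
    rcases eq_or_ne u 0 with h | h
    · rw [h]
      simp
    · exact (hG.met.pos _ _ h).le
  have hop : ∀ p : P d, Nr K 1 p → ‖G p.1‖ ≤ b := by
    intro p hp
    have h := hG.bd m 0 p.1 (hm p hp)
    rw [norm_iteratedFDeriv_zero] at h
    exact h.trans hb0
  have hnno : ∀ p : P d, Nr K 1 p → ‖p.2‖ ≤ b ^ 2 * nrm G p := fun p hp =>
    (GUE_bd hGIN hG.met hb p (hlo p hp) (hop p hp)).2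
  have hlip : ∀ p q : P d, Nr K 1 p → Nr K 1 q → ‖G q.1 - G p.1‖ ≤ b * ‖q.1 - p.1‖ := by
    intro p q hp hq
    refine (convex_closedBall (0 : V d) (m : ℝ)).norm_image_sub_le_of_norm_fderiv_le (𝕜 := ℝ)
      (f := G) (C := b) ?_ ?_ ?_ ?_
    · intro x _
      exact (hG.met.smooth.differentiable (by simp)) x
    · intro x hx
      rw [← norm_iteratedFDeriv_one]
      exact (hG.bd m 1 x (by simpa using hx)).trans hb1
    · simpa using hm p hp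
    · simpa using hm q hq
  refine
    { fld := GUE_mono l0 hfl
      hr := one_pos
      hC := l4
      tt := ?_
      lp := ?_
      nlo := ?_
      nup := ?_
      nno := ?_
      nnl := ?_ }
  · intro p t hp _
    have h := g3 p 0 t (by rw [hp]; norm_num)
    rw [hΦ.zero] at h
    refine h.trans ?_
    rw [zero_sub, abs_neg]
    exact mul_le_mul_of_nonneg_right l6 (abs_nonneg _)
  · intro p q t hp hq ht
    refine (g1 p q t (by rw [hp]; norm_num) (by rw [hq]; norm_num)).trans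
      (mul_le_mul_of_nonneg_right (le_trans ?_ l1) (q2 _ _))
    refine mul_le_mul_of_nonneg_left (Real.exp_le_exp.2 ?_) (by linarith)
    exact mul_le_mul_of_nonneg_left ht (by linarith)
  · intro p q hp hq _ _ _
    have hc : ∀ r : P d, Nr K 1 r → χ r.1 = 1 := by
      rintro r ⟨k', hk', hr⟩
      refine hχ.one _ (Metric.mem_cthickening_of_dist_le _ k' 1 K hk' ?_)
      rw [dist_eq_norm]
      exact hr
    have h1 : ‖embP χ (lft (1 : Γ) p) - embP χ (lft (1 : Γ) q)‖ ≤ dP Γ χ p q :=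
      le_ciSup (q1 p q) (1 : Γ)
    have h2 : ‖embP χ (lft (1 : Γ) p) - embP χ (lft (1 : Γ) q)‖ = ‖p - q‖ := by
      rw [hfl.one, hfl.one]
      unfold embP
      rw [hc p hp, hc q hq]
      simp only [one_smul, mul_one, Prod.mk_sub_mk, sub_self]
      rw [Prod.norm_def, Prod.norm_def, Prod.norm_def]
      simp only [norm_zero, Prod.fst_sub, Prod.snd_sub]
      rw [max_eq_left (norm_nonneg (p.2 - q.2))]
    rw [h2] at h1
    exact h1.trans (le_mul_of_one_le_left (q2 _ _) l4)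
  · intro p q hp hq hp2 hq2 _
    have h1 : ‖p.2‖ ≤ 2 * b ^ 2 := (hnno p hp).trans (by nlinarith [sq_nonneg b])
    have h2 : ‖q.2‖ ≤ 2 * b ^ 2 := (hnno q hq).trans (by nlinarith [sq_nonneg b])
    exact (hU p q (hm p hp) (hm q hq) h1 h2).trans
      (mul_le_mul_of_nonneg_right l2 (norm_nonneg _))
  · intro p hp
    exact (hnno p hp).trans (mul_le_mul_of_nonneg_right l5 (Real.sqrt_nonneg _))
  · intro p q hp hq h1 h2 h3 h4
    exact (GUE_lip hGIN hG.met hb p q (hlo p hp) (hop p hp) (hlo q hq) (hop q hq)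
      (hlip p q hp hq) h1 h2 h3 h4).trans (mul_le_mul_of_nonneg_right l3 (norm_nonneg _))

end

end Pool.Agent.VDG
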